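import Mathlib
import Pool.Agent.Lib.helper21.Toep5

open MeasureTheory Metric

namespace Pool.Agent.Results.MP_3f635c_an.Counter

instance twoPi : Fact (0 < 2 * Real.pi) := ⟨Real.two_pi_pos⟩

/-- The unit circle, as reals modulo two pi; the point `t` is `fourier 1 t = exp (i t)`. -/
abbrev Circ := AddCircle (2 * Real.pi)

variable {X : Type} [NormedAddCommGroup X] [NormedSpace ℂ X]

/-- The element `x` of `X` is the polynomial `p` as a function on the unit disc. -/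
def Rep (ι : X →ₗ[ℂ] (ℂ → ℂ)) (x : X) (p : Polynomial ℂ) : Prop :=
  ∀ z ∈ ball (0 : ℂ) 1, ι x z = p.eval z

/-- Through `ι`, the space `X` is a space of analytic functions on the unit disc: every element
is analytic there, is determined by its values there, and point evaluations are continuous. -/
def IsAnalyticSpace (ι : X →ₗ[ℂ] (ℂ → ℂ)) : Prop :=
  (∀ x, DifferentiableOn ℂ (ι x) (ball 0 1)) ∧
  (∀ x y, (∀ z ∈ ball (0 : ℂ) 1, ι x z = ι y z) → x = y) ∧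
  (∀ z ∈ ball (0 : ℂ) 1, Continuous fun x => ι x z)

/-- The bounded operator `A` on `X` extends the Toeplitz operator `p ↦ P₊ (f p)` defined on
analytic polynomials: `A p` is the function whose Taylor coefficients are the Fourier
coefficients of nonnegative index of `f p`. -/
def IsToeplitz (ι : X →ₗ[ℂ] (ℂ → ℂ)) (f : Circ → ℂ) (A : X →L[ℂ] X) : Prop :=
  ∀ (x : X) (p : Polynomial ℂ), Rep ι x p → ∀ w ∈ ball (0 : ℂ) 1,
    HasSum (fun n : ℕ => fourierCoeff (fun t => f t * p.eval (fourier 1 t)) n * w ^ n) (ι (A x) w)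

/-- The symbol space `ST(X)`. -/
def ST (ι : X →ₗ[ℂ] (ℂ → ℂ)) : Set (Circ → ℂ) :=
  {f | MemLp f ⊤ AddCircle.haarAddCircle ∧ ∃ A : X →L[ℂ] X, IsToeplitz ι f A}

/-- Conditions 1, 2, 3 of the problem. -/
def Conditions (ι : X →ₗ[ℂ] (ℂ → ℂ)) : Prop :=
  (∀ (x : X) (t : ℝ), ∃ y : X, ∀ z ∈ ball (0 : ℂ) 1,
    ι y z = ι x (Complex.exp (t * Complex.I) * z)) ∧
  ((∀ p : Polynomial ℂ, ∃ x : X, Rep ι x p) ∧ Dense {x : X | ∃ p : Polynomial ℂ, Rep ι x p}) ∧
  ∃ S B : X →L[ℂ] X, IsToeplitz ι (fun t => fourier 1 t) S ∧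
    IsToeplitz ι (fun t => (starRingEnd ℂ) (fourier 1 t)) B ∧
    spectralRadius ℂ S = 1 ∧ spectralRadius ℂ B = 1

open Pool.Agent.Lib.Helper21 in
theorem result : ∃ (X : Type) (_ : NormedAddCommGroup X) (_ : NormedSpace ℂ X)
    (_ : CompleteSpace X) (ι : X →ₗ[ℂ] (ℂ → ℂ)), IsAnalyticSpace ι ∧ Conditions ι ∧
      ∃ f g : Circ → ℂ, f ∈ ST ι ∧ g ∈ ST ι ∧ (fun t => f t * g t) ∉ ST ι := by
  refine ⟨Toep4.XX, inferInstance, inferInstance, inferInstance, Toep4.iota,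
    ⟨Toep4.iota_diff, fun _ _ h => Toep4.iota_inj h,
      fun z hz => Toep4.iota_cont (by simpa using hz)⟩,
    ⟨Toep5.rotation, ⟨fun p => ⟨Toep4.ee p, fun z hz => Toep4.iota_ee p (by simpa using hz)⟩, ?_⟩,
      Toep5.SS0, Toep5.BB0, Toep5.TT_toeplitz (Toep5.good_sh _ Toep5.Sh_zc),
      Toep5.TT_toeplitz (Toep5.good_sh _ Toep5.Sh_conj), Toep5.radius_S, Toep5.radius_B⟩,
    Toep2.ff, Toep2.gg,
    ⟨Toep2.BM_ff.memLp _, _, Toep5.TT_toeplitz Toep5.good_ff⟩,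
    ⟨Toep2.BM_gg.memLp _, _, Toep5.TT_toeplitz Toep5.good_gg⟩, ?_⟩
  · refine Dense.mono ?_ Toep4.dense_ee
    rintro _ ⟨p, rfl⟩
    exact ⟨p, fun z hz => Toep4.iota_ee p (by simpa using hz)⟩
  · rintro ⟨-, A, hA⟩
    exact Toep5.not_toeplitz A hA

end Pool.Agent.Results.MP_3f635c_an.Counter
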